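import Pool.Agent.H64.BC.Loc

/-!
Torsion-free barely transitive groups: a nontrivial locally normal subgroup has trivial centralizer.
-/

set_option autoImplicit false

namespace H64.BC

open H47.BT (Bare)
open MulAction

variable {G Ω : Type*} [Group G] [MulAction G Ω]

/-- A barely transitive group which is not finitely generated is not generated by a point stabilizer
and finitely many elements. -/
theorem sup_ne_top (h : Bare G Ω) (hfg : ¬ Group.FG G) (x : Ω) {F : Subgroup G} (hF : F.FG) :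
    stabilizer G x ⊔ F ≠ ⊤ := by
  classical
  intro hc
  have := h.trans
  have := h.inf
  obtain ⟨S, hS⟩ := hF
  -- the neighbours of `x`
  let T : Set G := (S : Set G) ∪ (S : Set G)⁻¹
  have hT : T.Finite := S.finite_toSet.union S.finite_toSet.inv
  let N : Set Ω := ⋃ s ∈ T, orbit (stabilizer G x) (s • x)
  have hN : N.Finite := hT.biUnion fun s _ => h.bare _ (h.stab x) _
  choose q hq using fun y : Ω => exists_smul_eq G x y
  let E : Subgroup G := Subgroup.closure (q '' N)
  have hE : E.FG := (Subgroup.fg_iff _).2 ⟨q '' N, rfl, hN.image q⟩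
  have hEt : E ≠ ⊤ := by
    intro h1
    rw [h1] at hE
    exact hfg (Group.fg_def.2 hE)
  have hstep : ∀ g s : G, s ∈ T → (∃ e ∈ E, g • x = e • x) → ∃ e ∈ E, (g * s) • x = e • x := by
    rintro g s hs ⟨e, he, hge⟩
    have h1 : e⁻¹ * g ∈ stabilizer G x := by
      rw [mem_stabilizer_iff, mul_smul, hge, inv_smul_smul]
    have h2 : (e⁻¹ * g) • s • x ∈ N :=
      Set.mem_biUnion hs ⟨⟨e⁻¹ * g, h1⟩, rfl⟩
    refine ⟨e * q ((e⁻¹ * g) • s • x), mul_mem he (Subgroup.subset_closure ⟨_, h2, rfl⟩), ?_⟩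
    rw [mul_smul e, hq, ← mul_smul, mul_inv_cancel_left, ← mul_smul]
  have hall : ∀ g : G, ∃ e ∈ E, g • x = e • x := by
    intro g
    have hg : g ∈ Subgroup.closure ((stabilizer G x : Set G) ∪ S) := by
      rw [Subgroup.closure_union, Subgroup.closure_eq, hS, hc]
      trivial
    induction hg using Subgroup.closure_induction_right with
    | one => exact ⟨1, one_mem _, rfl⟩
    | mul_right g _ s hs ih =>
      rcases hs with hs | hs
      · obtain ⟨e, he, hge⟩ := ih
        exact ⟨e, he, by rw [mul_smul, mem_stabilizer_iff.1 hs, hge]⟩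
      · exact hstep g s (Or.inl hs) ih
    | mul_inv_cancel g _ s hs ih =>
      rcases hs with hs | hs
      · obtain ⟨e, he, hge⟩ := ih
        exact ⟨e, he, by rw [mul_smul, mem_stabilizer_iff.1 (inv_mem hs), hge]⟩
      · exact hstep g s⁻¹ (Or.inr (Set.inv_mem_inv.2 hs)) ih
  have hfin := h.bare E hEt x
  have : (Set.univ : Set Ω) ⊆ orbit E x := by
    intro y _
    obtain ⟨g, rfl⟩ := exists_smul_eq G x y
    obtain ⟨e, he, hge⟩ := hall g
    exact ⟨⟨e, he⟩, hge.symm⟩
  exact Set.infinite_univ (hfin.subset this)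

/-- A proper subgroup is contained in the subgroup generated by the point stabilizer and finitely many
elements. -/
theorem exists_fg_sup (h : Bare G Ω) (x : Ω) {K : Subgroup G} (hK : K ≠ ⊤) :
    ∃ F : Subgroup G, F.FG ∧ K ≤ stabilizer G x ⊔ F := by
  classical
  have hfin : (orbit K x).Finite := h.bare K hK x
  have key : ∀ y : Ω, ∃ k : G, k ∈ K ∧ (y ∈ orbit K x → k • x = y) := by
    intro y
    by_cases hy : y ∈ orbit K x
    · obtain ⟨k, rfl⟩ := hy
      exact ⟨k, k.2, fun _ => rfl⟩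
    · exact ⟨1, one_mem _, fun h => absurd h hy⟩
  choose q hqK hq using key
  refine ⟨Subgroup.closure (q '' orbit K x), (Subgroup.fg_iff _).2 ⟨_, rfl, hfin.image q⟩, ?_⟩
  intro k hk
  have hy : k • x ∈ orbit K x := ⟨⟨k, hk⟩, rfl⟩
  have h1 : (q (k • x))⁻¹ * k ∈ stabilizer G x := by
    rw [mem_stabilizer_iff, mul_smul, inv_smul_eq_iff, hq _ hy]
  have h2 := mul_mem
    ((le_sup_right : _ ≤ stabilizer G x ⊔ Subgroup.closure (q '' orbit K x))
      (Subgroup.subset_closure ⟨_, hy, rfl⟩))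
    ((le_sup_left : _ ≤ stabilizer G x ⊔ Subgroup.closure (q '' orbit K x)) h1)
  rwa [mul_inv_cancel_left] at h2

/-- the open subgroups of a barely transitive group which is not finitely generated -/
theorem sys (h : Bare G Ω) (hfg : ¬ Group.FG G) (x : Ω) :
    Sy (fun X : Subgroup G => X.relIndex (stabilizer G x) ≠ 0) where
  top := by
    rw [Subgroup.relIndex_top_left]
    exact one_ne_zero
  inf := fun h1 h2 => Subgroup.relIndex_inf_ne_zero h1 h2
  mono := fun h1 h2 => fun hc =>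
    h1 (Nat.eq_zero_of_zero_dvd (hc ▸ Subgroup.relIndex_dvd_of_le_left _ h2))
  conj := fun g _ hX => h.conj x g hX
  fin := fun hX hP => Subgroup.relIndex_ne_zero_trans hX (h.rel hP x)
  simple := h.simple
  tf := fun hn hg => h.pw hn hg
  cent := h.ctr
  cyc := h.cyc
  na := by
    intro A hA hab
    by_contra hne
    obtain ⟨Y, hY, hYA⟩ := hA
    exact H64.BA.abel h hfg x hne hab hY hYA

/-- **The theorem for groups which are not finitely generated.** -/
theorem no_comm (h : Bare G Ω) (hfg : ¬ Group.FG G) (x : Ω) {A : Subgroup G}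
    (hA : Good (fun X : Subgroup G => X.relIndex (stabilizer G x) ≠ 0) A) : False := by
  classical
  have hs := sys h hfg x
  -- a good subgroup which meets a conjugate trivially
  obtain ⟨t, ht⟩ : ∃ t : G, t ∉ Nz A := by
    by_contra hc
    push Not at hc
    exact Nz_ne_top hs hA (eq_top_iff.2 fun g _ => hc g)
  have hnle : ¬ A ≤ cj t A := by
    intro hle
    rcases eq_or_lt_of_le hle with h1 | h1
    · exact ht h1.symm
    · exact hA.nocomp hs t h1
  let A0 : Subgroup G := A ⊓ Cz (cj t A)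
  have hA0 : Good _ A0 := hA.star hs (hA.cnj hs t) hnle
  have hdis : ∀ a ∈ A0, t * a * t⁻¹ ∈ A0 → a = 1 := by
    intro a ha hta
    have h1 : t * a * t⁻¹ ∈ Cz (cj t A) ⊓ cj t A := by
      refine Subgroup.mem_inf.2 ⟨hta.2, ?_⟩
      rw [mem_cj]
      have : t⁻¹ * (t * a * t⁻¹) * t = a := by group
      rw [this]
      exact ha.1
    rw [hs.ctr (hA.cnj hs t).ln] at h1
    have h2 := Subgroup.mem_bot.1 h1
    have h3 : t⁻¹ * (t * a * t⁻¹) * t = t⁻¹ * 1 * t := by rw [h2]
    have e1 : t⁻¹ * (t * a * t⁻¹) * t = a := by group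
    have e2 : t⁻¹ * 1 * t = (1 : G) := by group
    rw [e1, e2] at h3
    exact h3
  -- elements which centralize small subgroups are bounded
  obtain ⟨B, hB, hBA, F, hF, hbd⟩ : ∃ B, Good (fun X : Subgroup G =>
      X.relIndex (stabilizer G x) ≠ 0) B ∧ B ≤ A0 ∧ ∃ F : Subgroup G, F.FG ∧
      ∀ B', Good (fun X : Subgroup G => X.relIndex (stabilizer G x) ≠ 0) B' → B' ≤ B →
        Cz B' ≤ stabilizer G x ⊔ F := by
    by_contra hcon
    push Not at hcon
    -- the states
    let St : Type _ := {p : Subgroup G × Subgroup G //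
      (Good (fun X : Subgroup G => X.relIndex (stabilizer G x) ≠ 0) p.1 ∧ p.1 ≤ A0) ∧ p.2.FG}
    have hnext : ∀ p : St, ∃ p' : St, ∃ y : G, y ∉ stabilizer G x ⊔ p.1.2 ∧ y ∈ Cz p'.1.1 ∧
        p'.1.1 ≤ p.1.1 ∧ p'.1.2 = p.1.2 ⊔ Subgroup.zpowers y := by
      rintro ⟨⟨B, F⟩, ⟨hB, hBA⟩, hF⟩
      obtain ⟨B', hB', hle, hnot⟩ := hcon B hB hBA F hF
      obtain ⟨y, hy, hyn⟩ := Set.not_subset.1 hnot
      exact ⟨⟨(B', F ⊔ Subgroup.zpowers y), ⟨hB', hle.trans hBA⟩,
        hF.sup ⟨{y}, by simp [Subgroup.zpowers_eq_closure]⟩⟩, y, hyn, hy, hle, rfl⟩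
    choose nx y hy1 hy2 hy3 hy4 using hnext
    let s0 : St := ⟨(A0, ⊥), ⟨hA0, le_rfl⟩, ⟨∅, by simp⟩⟩
    let s : ℕ → St := fun n => nx^[n] s0
    have hss : ∀ n, s (n + 1) = nx (s n) := fun n => Function.iterate_succ_apply' nx n s0
    have hanti : Antitone fun n => (s n).1.1 := antitone_nat_of_succ_le fun n => by
      show (s (n + 1)).1.1 ≤ (s n).1.1
      rw [hss]
      exact hy3 _
    have hmono : Monotone fun n => (s n).1.2 := monotone_nat_of_le_succ fun n => by
      show (s n).1.2 ≤ (s (n + 1)).1.2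
      rw [hss, hy4]
      exact le_sup_left
    let P : Subgroup G :=
      { carrier := {g | ∃ n, g ∈ Cz (s n).1.1}
        one_mem' := ⟨0, one_mem _⟩
        mul_mem' := by
          rintro a b ⟨n, ha⟩ ⟨m, hb⟩
          exact ⟨max n m, mul_mem (Cz_anti (hanti (le_max_left n m)) ha)
            (Cz_anti (hanti (le_max_right n m)) hb)⟩
        inv_mem' := by
          rintro a ⟨n, ha⟩
          exact ⟨n, inv_mem ha⟩ }
    have hyP : ∀ n, y (s n) ∈ P := fun n => ⟨n + 1, by rw [hss]; exact hy2 _⟩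
    have hPt : P ≠ ⊤ := by
      intro hc
      have htP : t ∈ P := by rw [hc]; trivial
      obtain ⟨n, hn⟩ := htP
      obtain ⟨a, ha, ha1⟩ := exists_ne_one (s n).2.1.1.nb
      have h1 := mem_Cz.1 hn a ha
      refine ha1 (hdis a ((s n).2.1.2 ha) ?_)
      have : t * a * t⁻¹ = a := by
        rw [← h1]
        group
      rw [this]
      exact (s n).2.1.2 ha
    have hfin := h.bare P hPt x
    have hinj : Function.Injective fun n => y (s n) • x := by
      have hlt : ∀ m n, m < n → y (s m) • x ≠ y (s n) • x := by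
        intro m n hmn hc
        apply hy1 (s n)
        have h1 : (y (s m))⁻¹ * y (s n) ∈ stabilizer G x := by
          rw [mem_stabilizer_iff, mul_smul, ← hc, inv_smul_smul]
        have h2 : y (s m) ∈ (s n).1.2 := by
          refine hmono (Nat.succ_le_of_lt hmn) ?_
          show y (s m) ∈ (s (m + 1)).1.2
          rw [hss, hy4]
          exact (le_sup_right : _ ≤ (s m).1.2 ⊔ Subgroup.zpowers (y (s m)))
            (Subgroup.mem_zpowers _)
        have h3 := mul_mem ((le_sup_right : _ ≤ stabilizer G x ⊔ (s n).1.2) h2)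
          ((le_sup_left : _ ≤ stabilizer G x ⊔ (s n).1.2) h1)
        rwa [mul_inv_cancel_left] at h3
      intro m n hmn
      rcases lt_trichotomy m n with h1 | h1 | h1
      · exact absurd hmn (hlt m n h1)
      · exact h1
      · exact absurd hmn.symm (hlt n m h1)
    refine Set.infinite_range_of_injective hinj (hfin.subset ?_)
    rintro _ ⟨n, rfl⟩
    exact ⟨⟨_, hyP n⟩, rfl⟩
  -- all conjugates of an element of `B` are bounded
  obtain ⟨c, hc, hc1⟩ := exists_ne_one hB.nb
  obtain ⟨F', hF', hBF⟩ := exists_fg_sup h x hB.nt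
  have hK := sup_ne_top h hfg x (hF.sup hF')
  have hnc : Subgroup.normalClosure {c} ≤ stabilizer G x ⊔ (F ⊔ F') := by
    rw [Subgroup.normalClosure, Subgroup.closure_le]
    intro z hz
    obtain ⟨b, hb, hbz⟩ := Group.mem_conjugatesOfSet_iff.1 hz
    obtain ⟨g, hg⟩ := isConj_iff.1 hbz
    rw [Set.mem_singleton_iff.1 hb] at hg
    have hzB : z ∈ cj g B := by
      rw [mem_cj, ← hg]
      have : g⁻¹ * (g * c * g⁻¹) * g = c := by group
      rw [this]
      exact hc
    by_cases hle : B ≤ cj g B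
    · have h1 : cj g B = B := by
        rcases eq_or_lt_of_le hle with h1 | h1
        · exact h1.symm
        · exact absurd h1 (hB.nocomp hs g)
      rw [h1] at hzB
      exact (sup_le_sup_left le_sup_right _ : stabilizer G x ⊔ F' ≤ _) (hBF hzB)
    · have h1 := hB.star hs (hB.cnj hs g) hle
      have h2 := hbd _ h1 inf_le_left
      refine (sup_le_sup_left le_sup_left _ : stabilizer G x ⊔ F ≤ _) (h2 ?_)
      exact Cz_anti inf_le_right (le_CzCz _ hzB)
  rcases h.simple _ (Subgroup.normalClosure_normal (s := ({c} : Set G))) with h1 | h1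
  · have : c ∈ Subgroup.normalClosure {c} := Subgroup.subset_normalClosure rfl
    rw [h1] at this
    exact hc1 (Subgroup.mem_bot.1 this)
  · rw [h1] at hnc
    exact hK (top_le_iff.1 hnc)

/-- **A nontrivial locally normal subgroup of a torsion-free barely transitive group has trivial
centralizer.** -/
theorem cz_bot (h : Bare G Ω) (x : Ω) {M : Subgroup G} (hM : M ≠ ⊥) {Y : Subgroup G}
    (hY : Y.relIndex (stabilizer G x) ≠ 0) (hYM : ∀ y ∈ Y, ∀ m ∈ M, y * m * y⁻¹ ∈ M) :
    Subgroup.centralizer (M : Set G) = ⊥ := by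
  by_contra hne
  by_cases hfg : Group.FG G
  · refine (h.sys hfg x).main (M := M) (N := Subgroup.centralizer (M : Set G))
      ⟨Y, hY, hYM⟩ hM hne ?_
    intro m hm n hn
    exact Subgroup.mem_centralizer_iff.1 hn m hm
  · have hs := sys h hfg x
    have hLN : LN (fun X : Subgroup G => X.relIndex (stabilizer G x) ≠ 0) M := ⟨Y, hY, hYM⟩
    exact no_comm h hfg x (A := Cz M) ⟨hLN.cz, hne, hs.cz_ne_top hM, CzCzCz M⟩

/-- Two nontrivial locally normal subgroups of a torsion-free barely transitive group intersect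
nontrivially. -/
theorem inf_ne_bot (h : Bare G Ω) (x : Ω) {M N : Subgroup G} (hM : M ≠ ⊥) (hN : N ≠ ⊥)
    {X Y : Subgroup G} (hX : X.relIndex (stabilizer G x) ≠ 0)
    (hY : Y.relIndex (stabilizer G x) ≠ 0) (hXM : ∀ y ∈ X, ∀ m ∈ M, y * m * y⁻¹ ∈ M)
    (hYN : ∀ y ∈ Y, ∀ m ∈ N, y * m * y⁻¹ ∈ N) : M ⊓ N ≠ ⊥ := by
  intro hMN
  have hMt : M ≠ ⊤ := by
    rintro rfl
    rw [top_inf_eq] at hMN
    exact hN hMN
  have hNt : N ≠ ⊤ := by
    rintro rfl
    rw [inf_top_eq] at hMN
    exact hM hMN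
  have hne : ∀ {L Z : Subgroup G}, L ≠ ⊥ → L ≠ ⊤ → Z.relIndex (stabilizer G x) ≠ 0 → L ⊓ Z ≠ ⊥ := by
    intro L Z hL hLt hZ hc
    obtain ⟨a, ha, ha1⟩ := exists_ne_one hL
    obtain ⟨n, hn, _, han⟩ := Subgroup.exists_pow_mem_of_relIndex_ne_zero
      (Subgroup.relIndex_ne_zero_trans hZ (h.rel hLt x)) ha
    have h1 : a ^ n ∈ L ⊓ Z := ⟨pow_mem ha n, han.1⟩
    rw [hc] at h1
    exact ha1 (h.pw hn.ne' (Subgroup.mem_bot.1 h1))
  have h1 := cz_bot h x (M := M ⊓ Y) (hne hM hMt hY) (Y := X ⊓ Y)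
    (Subgroup.relIndex_inf_ne_zero hX hY) (by
      intro y hy m hm
      exact ⟨hXM y hy.1 m hm.1, mul_mem (mul_mem hy.2 hm.2) (Subgroup.inv_mem _ hy.2)⟩)
  apply hne hN hNt hX
  rw [eq_bot_iff, ← h1]
  intro n hn
  rw [Subgroup.mem_centralizer_iff]
  intro m hm
  have hm : m ∈ M ⊓ Y := hm
  have h2 : m * n * m⁻¹ * n⁻¹ ∈ M ⊓ N := by
    refine Subgroup.mem_inf.2 ⟨?_, mul_mem (hYN m hm.2 n hn.1) (inv_mem hn.1)⟩
    have := mul_mem hm.1 (hXM n hn.2 m⁻¹ (inv_mem hm.1))
    have e : m * (n * m⁻¹ * n⁻¹) = m * n * m⁻¹ * n⁻¹ := by group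
    rwa [e] at this
  rw [hMN] at h2
  have h3 := Subgroup.mem_bot.1 h2
  have h4 := congrArg (fun t => t * n * m) h3
  have e1 : m * n * m⁻¹ * n⁻¹ * n * m = m * n := by group
  have e2 : 1 * n * m = n * m := by group
  simp only [e1, e2] at h4
  exact h4

end H64.BC
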