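import Pool.Agent.H64.BA.Sol

/-!
Locally normal subgroups and their centralizers in a simple torsion-free group all of whose proper
subgroups are elliptic, without assuming that the group is finitely generated. The lemmas are those
of helper47 (Pool.Agent.H47.BT.Core and Main), whose structure contains finite generation; here the
structure has instead the absence of abelian locally normal subgroups.
-/

set_option autoImplicit false

namespace H64.BC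

open Subgroup

variable {G : Type*} [Group G]

/-- the conjugate `g X g⁻¹` -/
def cj (g : G) (X : Subgroup G) : Subgroup G := X.map (MulAut.conj g).toMonoidHom

theorem mem_cj {g x : G} {X : Subgroup G} : x ∈ cj g X ↔ g⁻¹ * x * g ∈ X := by
  unfold cj
  rw [Subgroup.mem_map]
  constructor
  · rintro ⟨y, hy, rfl⟩
    have : g⁻¹ * (MulAut.conj g).toMonoidHom y * g = y := by
      simp [mul_assoc]
    rwa [this]
  · intro h
    exact ⟨_, h, by simp [mul_assoc]⟩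

theorem cj_mul (g h : G) (X : Subgroup G) : cj (g * h) X = cj g (cj h X) := by
  ext x
  rw [mem_cj, mem_cj, mem_cj]
  simp only [mul_inv_rev, mul_assoc]

theorem cj_one (X : Subgroup G) : cj 1 X = X := by
  ext x
  rw [mem_cj]
  simp

theorem cj_mono (g : G) {X Y : Subgroup G} (h : X ≤ Y) : cj g X ≤ cj g Y := by
  intro x hx
  rw [mem_cj] at hx ⊢
  exact h hx

theorem cj_inv_cj (g : G) (X : Subgroup G) : cj g⁻¹ (cj g X) = X := by
  rw [← cj_mul, inv_mul_cancel, cj_one]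

theorem cj_cj_inv (g : G) (X : Subgroup G) : cj g (cj g⁻¹ X) = X := by
  rw [← cj_mul, mul_inv_cancel, cj_one]

theorem cj_le_iff (g : G) {X Y : Subgroup G} : cj g X ≤ cj g Y ↔ X ≤ Y := by
  refine ⟨fun h => ?_, cj_mono g⟩
  have := cj_mono g⁻¹ h
  rwa [cj_inv_cj, cj_inv_cj] at this

theorem cj_inj (g : G) {X Y : Subgroup G} (h : cj g X = cj g Y) : X = Y := by
  rw [← cj_inv_cj g X, h, cj_inv_cj]

theorem cj_lt_iff (g : G) {X Y : Subgroup G} : cj g X < cj g Y ↔ X < Y := by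
  rw [lt_iff_le_not_ge, lt_iff_le_not_ge, cj_le_iff, cj_le_iff]

theorem cj_inf (g : G) (X Y : Subgroup G) : cj g (X ⊓ Y) = cj g X ⊓ cj g Y := by
  ext x
  simp only [Subgroup.mem_inf, mem_cj]

theorem cj_top (g : G) : cj g (⊤ : Subgroup G) = ⊤ := by
  ext x
  simp [mem_cj]

theorem cj_bot (g : G) : cj g (⊥ : Subgroup G) = ⊥ := by
  ext x
  rw [mem_cj, Subgroup.mem_bot, Subgroup.mem_bot]
  constructor
  · intro h
    have : x = g * (g⁻¹ * x * g) * g⁻¹ := by group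
    rw [this, h]
    group
  · rintro rfl
    group

/-- the centralizer -/
abbrev Cz (X : Subgroup G) : Subgroup G := Subgroup.centralizer (X : Set G)

theorem mem_Cz {X : Subgroup G} {g : G} : g ∈ Cz X ↔ ∀ h ∈ X, h * g = g * h :=
  Subgroup.mem_centralizer_iff

theorem Cz_anti {X Y : Subgroup G} (h : X ≤ Y) : Cz Y ≤ Cz X := Subgroup.centralizer_le h

theorem le_CzCz (X : Subgroup G) : X ≤ Cz (Cz X) := by
  intro x hx
  rw [mem_Cz]
  intro h hh
  exact (mem_Cz.1 hh x hx).symm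

theorem CzCzCz (X : Subgroup G) : Cz (Cz (Cz X)) ≤ Cz X := Cz_anti (le_CzCz X)

theorem cj_Cz (g : G) (X : Subgroup G) : cj g (Cz X) = Cz (cj g X) := by
  ext x
  rw [mem_cj, mem_Cz, mem_Cz]
  constructor
  · intro h y hy
    have h1 := h _ (mem_cj.1 hy)
    have h2 : g * (g⁻¹ * y * g * (g⁻¹ * x * g)) * g⁻¹ = g * (g⁻¹ * x * g * (g⁻¹ * y * g)) * g⁻¹ := by
      rw [h1]
    have e1 : g * (g⁻¹ * y * g * (g⁻¹ * x * g)) * g⁻¹ = y * x := by group
    have e2 : g * (g⁻¹ * x * g * (g⁻¹ * y * g)) * g⁻¹ = x * y := by group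
    rw [e1, e2] at h2
    exact h2
  · intro h y hy
    have h1 : g * y * g⁻¹ ∈ cj g X := by
      rw [mem_cj]
      have : g⁻¹ * (g * y * g⁻¹) * g = y := by group
      rwa [this]
    have h2 := h _ h1
    have h3 : g⁻¹ * (g * y * g⁻¹ * x) * g = g⁻¹ * (x * (g * y * g⁻¹)) * g := by rw [h2]
    have e1 : g⁻¹ * (g * y * g⁻¹ * x) * g = y * (g⁻¹ * x * g) := by group
    have e2 : g⁻¹ * (x * (g * y * g⁻¹)) * g = g⁻¹ * x * g * y := by group
    rw [e1, e2] at h3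
    exact h3

/-- `X` normalizes `M` -/
def Nrm (X M : Subgroup G) : Prop := ∀ x ∈ X, ∀ m ∈ M, x * m * x⁻¹ ∈ M

theorem Nrm.cz {X M : Subgroup G} (h : Nrm X M) : Nrm X (Cz M) := by
  intro x hx c hc
  rw [mem_Cz] at hc ⊢
  intro m hm
  have h1 := hc _ (h x⁻¹ (inv_mem hx) m hm)
  rw [inv_inv] at h1
  have h3 : x * (x⁻¹ * m * x * c) * x⁻¹ = x * (c * (x⁻¹ * m * x)) * x⁻¹ := by rw [h1]
  have e1 : x * (x⁻¹ * m * x * c) * x⁻¹ = m * (x * c * x⁻¹) := by group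
  have e2 : x * (c * (x⁻¹ * m * x)) * x⁻¹ = x * c * x⁻¹ * m := by group
  rw [e1, e2] at h3
  exact h3

theorem Nrm.inf {X Y M N : Subgroup G} (h : Nrm X M) (h' : Nrm Y N) :
    Nrm (X ⊓ Y) (M ⊓ N) := by
  intro x hx m hm
  exact ⟨h x hx.1 m hm.1, h' x hx.2 m hm.2⟩

theorem Nrm.mono {X Y M : Subgroup G} (h : Nrm X M) (h' : Y ≤ X) : Nrm Y M :=
  fun x hx m hm => h x (h' hx) m hm

theorem Nrm.self (X : Subgroup G) : Nrm X X :=
  fun x hx m hm => mul_mem (mul_mem hx hm) (inv_mem hx)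

theorem Nrm.cj {X M : Subgroup G} (h : Nrm X M) (g : G) : Nrm (cj g X) (cj g M) := by
  intro x hx m hm
  rw [mem_cj] at hx hm ⊢
  have h1 := h _ hx _ hm
  have e : g⁻¹ * x * g * (g⁻¹ * m * g) * (g⁻¹ * x * g)⁻¹ = g⁻¹ * (x * m * x⁻¹) * g := by group
  rwa [e] at h1

theorem Nrm.cj_eq {X M : Subgroup G} (h : Nrm X M) {x : G} (hx : x ∈ X) :
    H64.BC.cj x M = M := by
  ext m
  rw [mem_cj]
  constructor
  · intro hm
    have := h x hx _ hm
    have e : x * (x⁻¹ * m * x) * x⁻¹ = m := by group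
    rwa [e] at this
  · intro hm
    have := h x⁻¹ (inv_mem hx) m hm
    rwa [inv_inv] at this

/-- locally normal subgroups -/
def LN (Op : Subgroup G → Prop) (M : Subgroup G) : Prop := ∃ X, Op X ∧ Nrm X M

/-- the axioms: `Op` is a system of open subgroups, the group is simple, torsion-free,
all proper subgroups are elliptic, and there are no abelian locally normal subgroups -/
structure Sy (Op : Subgroup G → Prop) : Prop where
  top : Op ⊤
  inf : ∀ {X Y : Subgroup G}, Op X → Op Y → Op (X ⊓ Y)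
  mono : ∀ {X Y : Subgroup G}, Op X → X ≤ Y → Op Y
  conj : ∀ (g : G) {X : Subgroup G}, Op X → Op (cj g X)
  fin : ∀ {X P : Subgroup G}, Op X → P ≠ ⊤ → X.relIndex P ≠ 0
  simple : ∀ N : Subgroup G, N.Normal → N = ⊥ ∨ N = ⊤
  tf : ∀ {g : G} {n : ℕ}, n ≠ 0 → g ^ n = 1 → g = 1
  cent : Subgroup.center G = ⊥
  cyc : ∀ g : G, Subgroup.zpowers g ≠ ⊤
  na : ∀ {A : Subgroup G}, LN Op A → (∀ x ∈ A, ∀ y ∈ A, x * y = y * x) → A = ⊥

variable {Op : Subgroup G → Prop}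

theorem Sy.pow (h : Sy Op) {X P : Subgroup G} (hX : Op X) (hP : P ≠ ⊤) {x : G} (hx : x ∈ P) :
    ∃ n : ℕ, n ≠ 0 ∧ x ^ n ∈ P ⊓ X := by
  obtain ⟨n, h1, _, h2⟩ := exists_pow_mem_of_relIndex_ne_zero (h.fin hX hP) hx
  exact ⟨n, h1.ne', h2.2, h2.1⟩

theorem LN.cz {M : Subgroup G} (h : LN Op M) : LN Op (Cz M) := by
  obtain ⟨X, h1, h2⟩ := h
  exact ⟨X, h1, h2.cz⟩

theorem LN.inf (hs : Sy Op) {M N : Subgroup G} (h : LN Op M) (h' : LN Op N) :
    LN Op (M ⊓ N) := by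
  obtain ⟨X, h1, h2⟩ := h
  obtain ⟨Y, h3, h4⟩ := h'
  exact ⟨X ⊓ Y, hs.inf h1 h3, h2.inf h4⟩

theorem LN.cj (hs : Sy Op) {M : Subgroup G} (h : LN Op M) (g : G) : LN Op (cj g M) := by
  obtain ⟨X, h1, h2⟩ := h
  exact ⟨_, hs.conj g h1, h2.cj g⟩

theorem LN.op {M : Subgroup G} (h : Op M) : LN Op M := ⟨M, h, Nrm.self M⟩

/-- elements commuting with all generators are trivial -/
theorem Sy.gen (h : Sy Op) {T : Set G} (hT : Subgroup.closure T = ⊤) {z : G}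
    (hz : ∀ a ∈ T, z * a = a * z) : z = 1 := by
  have h1 : T ⊆ (Subgroup.centralizer {z} : Subgroup G) := by
    intro a ha
    rw [SetLike.mem_coe, Subgroup.mem_centralizer_iff]
    intro b hb
    rw [Set.mem_singleton_iff.1 hb]
    exact hz a ha
  have h2 : (⊤ : Subgroup G) ≤ Subgroup.centralizer {z} := by
    rw [← hT]
    exact (Subgroup.closure_le _).2 h1
  have h3 : z ∈ Subgroup.center G := by
    rw [Subgroup.mem_center_iff]
    intro g
    have := Subgroup.mem_centralizer_iff.1 (h2 (Subgroup.mem_top g)) z rfl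
    exact this.symm
  rw [h.cent] at h3
  exact Subgroup.mem_bot.1 h3

theorem Sy.cz_ne_top (h : Sy Op) {M : Subgroup G} (hM : M ≠ ⊥) : Cz M ≠ ⊤ := by
  intro hc
  apply hM
  rw [Subgroup.eq_bot_iff_forall]
  intro m hm
  refine h.gen (T := Set.univ) (by simp) fun a _ => ?_
  have : a ∈ Cz M := by rw [hc]; trivial
  exact mem_Cz.1 this m hm

theorem Sy.cz_top (h : Sy Op) : Cz (⊤ : Subgroup G) = ⊥ := by
  rw [Subgroup.eq_bot_iff_forall]
  intro z hz
  refine h.gen (T := Set.univ) (by simp) fun a _ => ?_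
  exact (mem_Cz.1 hz a trivial).symm

theorem exists_ne_one {A : Subgroup G} (h : A ≠ ⊥) : ∃ x ∈ A, x ≠ 1 := by
  by_contra hc
  push Not at hc
  exact h ((Subgroup.eq_bot_iff_forall A).2 hc)

/-- the centre of a locally normal subgroup is trivial -/
theorem Sy.ctr (h : Sy Op) {E : Subgroup G} (hE : LN Op E) : Cz E ⊓ E = ⊥ := by
  refine h.na (hE.cz.inf h hE) ?_
  intro x hx y hy
  exact (mem_Cz.1 hx.1 y hy.2).symm

theorem Sy.b1 (h : Sy Op) {T Y : Subgroup G} (hT : LN Op T) (hTt : T ≠ ⊤) (hY : Op Y) :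
    Cz (T ⊓ Y) ⊓ T = ⊥ := by
  rw [Subgroup.eq_bot_iff_forall]
  intro c hc
  obtain ⟨hc1, hc2⟩ := Subgroup.mem_inf.1 hc
  obtain ⟨n, hn, hcn⟩ := h.pow hY hTt hc2
  refine h.tf hn ?_
  have h1 : c ^ n ∈ Cz (T ⊓ Y) ⊓ (T ⊓ Y) := ⟨pow_mem hc1 n, hcn⟩
  rw [h.ctr (hT.inf h (LN.op hY))] at h1
  exact Subgroup.mem_bot.1 h1

theorem conj_centralizes {t x u : G} (h : (t⁻¹ * u * t) * x = x * (t⁻¹ * u * t)) :
    u * (t * x * t⁻¹) = t * x * t⁻¹ * u := by
  have h3 : t * ((t⁻¹ * u * t) * x) * t⁻¹ = t * (x * (t⁻¹ * u * t)) * t⁻¹ := by rw [h]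
  have e1 : t * ((t⁻¹ * u * t) * x) * t⁻¹ = u * (t * x * t⁻¹) := by group
  have e2 : t * (x * (t⁻¹ * u * t)) * t⁻¹ = t * x * t⁻¹ * u := by group
  rwa [e1, e2] at h3

/-- if `x` centralizes `T ⊓ Y` and `t ∈ T` then `t x t⁻¹` centralizes `T ⊓ (Y ⊓ t Y t⁻¹)` -/
theorem cz_conj {T Y : Subgroup G} {x t : G} (hx : x ∈ Cz (T ⊓ Y)) (ht : t ∈ T) :
    t * x * t⁻¹ ∈ Cz (T ⊓ (Y ⊓ cj t Y)) := by
  rw [mem_Cz]
  intro u hu
  obtain ⟨hu1, hu⟩ := Subgroup.mem_inf.1 hu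
  obtain ⟨hu2, hu3⟩ := Subgroup.mem_inf.1 hu
  refine conj_centralizes (mem_Cz.1 hx _ (Subgroup.mem_inf.2 ⟨mul_mem (mul_mem (inv_mem ht) hu1) ht, ?_⟩))
  exact mem_cj.1 hu3

theorem Sy.b2 (h : Sy Op) {T X Y : Subgroup G} (hX : Op X) (hXT : Nrm X T) (hTt : T ≠ ⊤)
    (hY : Op Y) {x t : G} (hx : x ∈ Cz (T ⊓ Y)) (hx' : x ∈ X) (ht : t ∈ T) : t * x = x * t := by
  have h1 : x * t * x⁻¹ * t⁻¹ ∈ T := mul_mem (hXT x hx' t ht) (Subgroup.inv_mem _ ht)
  have h2 : x ∈ Cz (T ⊓ (Y ⊓ cj t Y)) :=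
    Cz_anti (inf_le_inf_left _ inf_le_left) hx
  have h3 : t * x⁻¹ * t⁻¹ ∈ Cz (T ⊓ (Y ⊓ cj t Y)) := cz_conj (Subgroup.inv_mem _ hx) ht
  have h4 : x * t * x⁻¹ * t⁻¹ ∈ Cz (T ⊓ (Y ⊓ cj t Y)) ⊓ T := by
    refine ⟨?_, h1⟩
    have := mul_mem h2 h3
    have e : x * (t * x⁻¹ * t⁻¹) = x * t * x⁻¹ * t⁻¹ := by group
    rwa [e] at this
  rw [h.b1 ⟨X, hX, hXT⟩ hTt (h.inf hY (h.conj t hY))] at h4
  have h5 := Subgroup.mem_bot.1 h4
  have h6 : x * t * x⁻¹ * t⁻¹ * t * x = 1 * t * x := by rw [h5]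
  have e : x * t * x⁻¹ * t⁻¹ * t * x = x * t := by group
  rw [e, one_mul] at h6
  exact h6.symm

/-- centralizers do not change if the subgroup is replaced by an open subgroup of it -/
theorem Sy.cen (h : Sy Op) {T Y : Subgroup G} (hT : LN Op T) (hTt : T ≠ ⊤) (hY : Op Y) :
    Cz (T ⊓ Y) ≤ Cz T := by
  obtain ⟨X, hX, hXT⟩ := hT
  intro x hx
  rw [mem_Cz]
  intro t ht
  by_cases ht1 : t = 1
  · rw [ht1, one_mul, mul_one]
  let Y1 := Y ⊓ cj t Y
  have hY1 : Op Y1 := h.inf hY (h.conj t hY)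
  let E := T ⊓ Y1
  have hE : LN Op E := LN.inf h ⟨X, hX, hXT⟩ (LN.op hY1)
  have hEne : E ≠ ⊥ := by
    intro hc
    obtain ⟨n, hn, htn⟩ := h.pow hY1 hTt ht
    have : t ^ n ∈ E := htn
    rw [hc] at this
    exact ht1 (h.tf hn (Subgroup.mem_bot.1 this))
  let C := Cz E
  have hCt : C ≠ ⊤ := h.cz_ne_top hEne
  have hxC : x ∈ C := Cz_anti (inf_le_inf_left _ inf_le_left) hx
  have htC : t * x * t⁻¹ ∈ C := cz_conj hx ht
  let Y2 := X ⊓ cj x⁻¹ X
  have hY2 : Op Y2 := h.inf hX (h.conj _ hX)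
  have hd : x⁻¹ * (t * x * t⁻¹) ∈ C := mul_mem (inv_mem hxC) htC
  have hdE : ∀ u ∈ C ⊓ Y2, u * (x⁻¹ * (t * x * t⁻¹)) = x⁻¹ * (t * x * t⁻¹) * u := by
    intro u hu
    obtain ⟨hu1, hu⟩ := Subgroup.mem_inf.1 hu
    obtain ⟨hu2, hu3⟩ := Subgroup.mem_inf.1 hu
    have hu4 : x * u * x⁻¹ ∈ X := by
      have := mem_cj.1 hu3
      rwa [inv_inv] at this
    have h1 : t * u = u * t := h.b2 hX hXT hTt hY1 hu1 hu2 ht
    have h2 : t * (x * u * x⁻¹) = x * u * x⁻¹ * t :=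
      h.b2 hX hXT hTt hY1 (mul_mem (mul_mem hxC hu1) (inv_mem hxC)) hu4 ht
    have h1' : t⁻¹ * u = u * t⁻¹ := by
      have h3 : t⁻¹ * (t * u) * t⁻¹ = t⁻¹ * (u * t) * t⁻¹ := by rw [h1]
      have e1 : t⁻¹ * (t * u) * t⁻¹ = u * t⁻¹ := by group
      have e2 : t⁻¹ * (u * t) * t⁻¹ = t⁻¹ * u := by group
      rw [e1, e2] at h3
      exact h3.symm
    calc u * (x⁻¹ * (t * x * t⁻¹)) = x⁻¹ * ((x * u * x⁻¹) * t) * x * t⁻¹ := by group
      _ = x⁻¹ * (t * (x * u * x⁻¹)) * x * t⁻¹ := by rw [h2]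
      _ = x⁻¹ * t * x * (u * t⁻¹) := by group
      _ = x⁻¹ * t * x * (t⁻¹ * u) := by rw [h1']
      _ = x⁻¹ * (t * x * t⁻¹) * u := by group
  obtain ⟨n, hn, hdn⟩ := h.pow hY2 hCt hd
  have hz : (x⁻¹ * (t * x * t⁻¹)) ^ n ∈ Cz (C ⊓ Y2) ⊓ (C ⊓ Y2) := by
    refine ⟨pow_mem (mem_Cz.2 hdE) n, hdn⟩
  rw [h.ctr (hE.cz.inf h (LN.op hY2))] at hz
  have h7 := h.tf hn (Subgroup.mem_bot.1 hz)
  have h8 : x * (x⁻¹ * (t * x * t⁻¹)) * t = x * 1 * t := by rw [h7]
  have e : x * (x⁻¹ * (t * x * t⁻¹)) * t = t * x := by group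
  rw [e, mul_one] at h8
  exact h8

/-- the key property of closed locally normal subgroups -/
theorem Sy.star (h : Sy Op) {A B : Subgroup G} (hA : LN Op A) (hB : LN Op B) (hAt : A ≠ ⊤)
    (hBb : B ≠ ⊥) (hBc : Cz (Cz B) ≤ B) (hAB : A ⊓ Cz B = ⊥) : A ≤ B := by
  obtain ⟨X, hX, hXA⟩ := hA
  obtain ⟨Y, hY, hYB⟩ := hB
  have h1 : A ⊓ Y ≤ Cz (Cz B ⊓ X) := by
    intro a ha
    obtain ⟨ha1, ha2⟩ := Subgroup.mem_inf.1 ha
    rw [mem_Cz]
    intro b hb
    obtain ⟨hb1, hb2⟩ := Subgroup.mem_inf.1 hb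
    have h2 : b * a * b⁻¹ * a⁻¹ ∈ A ⊓ Cz B := by
      refine Subgroup.mem_inf.2 ⟨mul_mem (hXA b hb2 a ha1) (Subgroup.inv_mem _ ha1), ?_⟩
      have := Subgroup.mul_mem _ hb1 (hYB.cz a ha2 b⁻¹ (Subgroup.inv_mem _ hb1))
      have e : b * (a * b⁻¹ * a⁻¹) = b * a * b⁻¹ * a⁻¹ := by group
      rwa [e] at this
    rw [hAB] at h2
    have h3 := Subgroup.mem_bot.1 h2
    have h4 : b * a * b⁻¹ * a⁻¹ * a * b = 1 * a * b := by rw [h3]
    have e : b * a * b⁻¹ * a⁻¹ * a * b = b * a := by group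
    rw [e, one_mul] at h4
    exact h4
  have h2 : A ⊓ Y ≤ B :=
    (h1.trans (h.cen (LN.cz ⟨Y, hY, hYB⟩) (h.cz_ne_top hBb) hX)).trans hBc
  have h3 : Cz B ≤ Cz A := (Cz_anti h2).trans (h.cen ⟨X, hX, hXA⟩ hAt hY)
  exact ((le_CzCz A).trans (Cz_anti h3)).trans hBc

/-- nontrivial proper closed locally normal subgroups -/
structure Good (Op : Subgroup G → Prop) (A : Subgroup G) : Prop where
  ln : LN Op A
  nb : A ≠ ⊥
  nt : A ≠ ⊤
  cl : Cz (Cz A) ≤ A

theorem Good.cnj (hs : Sy Op) {A : Subgroup G} (h : Good Op A) (g : G) : Good Op (cj g A) where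
  ln := h.ln.cj hs g
  nb := fun hc => h.nb (cj_inj g (by rw [hc, cj_bot]))
  nt := fun hc => h.nt (cj_inj g (by rw [hc, cj_top]))
  cl := by
    rw [← cj_Cz, ← cj_Cz]
    exact cj_mono g h.cl

theorem Good.inf (hs : Sy Op) {A B : Subgroup G} (hA : Good Op A) (hB : LN Op B)
    (hne : A ⊓ Cz B ≠ ⊥) : Good Op (A ⊓ Cz B) where
  ln := hA.ln.inf hs hB.cz
  nb := hne
  nt := fun hc => hA.nt (top_le_iff.1 (hc ▸ inf_le_left))
  cl := le_inf ((Cz_anti (Cz_anti inf_le_left)).trans hA.cl)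
    ((Cz_anti (Cz_anti inf_le_right)).trans (CzCzCz B))

theorem Good.star (hs : Sy Op) {A B : Subgroup G} (hA : Good Op A) (hB : Good Op B)
    (hAB : ¬ A ≤ B) : Good Op (A ⊓ Cz B) :=
  hA.inf hs hB.ln fun hc => hAB (hs.star hA.ln hB.ln hA.nt hB.nb hB.cl hc)

/-- the normalizer -/
def Nz (B : Subgroup G) : Subgroup G where
  carrier := {g | cj g B = B}
  one_mem' := cj_one B
  mul_mem' := by
    intro a b ha hb
    show H64.BC.cj (a * b) B = B
    rw [cj_mul, show H64.BC.cj b B = B from hb, show H64.BC.cj a B = B from ha]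
  inv_mem' := by
    intro a ha
    show H64.BC.cj a⁻¹ B = B
    conv_lhs => rw [← show H64.BC.cj a B = B from ha]
    exact cj_inv_cj a B

theorem mem_Nz {B : Subgroup G} {g : G} : g ∈ Nz B ↔ cj g B = B := Iff.rfl

theorem Nrm.le_Nz {X M : Subgroup G} (h : Nrm X M) : X ≤ Nz M := fun _ hx => h.cj_eq hx

theorem Nz_ne_top (hs : Sy Op) {B : Subgroup G} (h : Good Op B) : Nz B ≠ ⊤ := by
  intro hc
  have hn : B.Normal := by
    refine ⟨fun n hn g => ?_⟩
    have hg : g ∈ Nz B := by rw [hc]; trivial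
    rw [← mem_Nz.1 hg, mem_cj]
    have : g⁻¹ * (g * n * g⁻¹) * g = n := by group
    rwa [this]
  rcases hs.simple B hn with h1 | h1
  · exact h.nb h1
  · exact h.nt h1

theorem Good.opNz (hs : Sy Op) {B : Subgroup G} (h : Good Op B) : Op (Nz B) := by
  obtain ⟨X, hX, hXB⟩ := h.ln
  exact hs.mono hX hXB.le_Nz

/-- good subgroups have smaller good subgroups -/
theorem Good.noatom (hs : Sy Op) {A : Subgroup G} (h : Good Op A) :
    ∃ A', Good Op A' ∧ A' < A := by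
  by_contra hc
  push Not at hc
  have hat : ∀ A', Good Op A' → A' ≤ A → A' = A := fun A' h1 h2 => by
    by_contra hne
    exact hc A' h1 (lt_of_le_of_ne h2 hne)
  have hcomm : ∀ g : G, cj g A = A ∨ cj g A ≤ Cz A := by
    intro g
    by_cases hle : cj g A ≤ A
    · exact Or.inl (hat _ (h.cnj hs g) hle)
    · right
      have h1 := (h.cnj hs g).star hs h hle
      have h2 : cj g⁻¹ (cj g A ⊓ Cz A) ≤ A := by
        have := cj_mono g⁻¹ (inf_le_left : cj g A ⊓ Cz A ≤ cj g A)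
        rwa [cj_inv_cj] at this
      have h3 := hat _ (h1.cnj hs g⁻¹) h2
      have h4 : cj g A ⊓ Cz A = cj g A := by
        rw [← cj_cj_inv g (cj g A ⊓ Cz A), h3]
      rw [← h4]
      exact inf_le_right
  have hle : ∀ g : G, cj g A ≤ Nz A := by
    intro g
    rcases hcomm g with h1 | h1
    · rw [h1]
      intro a ha
      exact (Nrm.self A).cj_eq ha
    · intro a ha
      have ha' := mem_Cz.1 (h1 ha)
      rw [mem_Nz]
      ext x
      rw [mem_cj]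
      constructor
      · intro hx
        have h2 := ha' _ hx
        have h3 : x = a⁻¹ * x * a := by
          have h4 : a * (a⁻¹ * x * a * a) * a⁻¹ * a⁻¹ = a * (a * (a⁻¹ * x * a)) * a⁻¹ * a⁻¹ := by
            rw [h2]
          have e1 : a * (a⁻¹ * x * a * a) * a⁻¹ * a⁻¹ = x := by group
          have e2 : a * (a * (a⁻¹ * x * a)) * a⁻¹ * a⁻¹ = a * x * a⁻¹ := by group
          rw [e1, e2] at h4
          have h5 : a⁻¹ * x * a = a⁻¹ * (a * x * a⁻¹) * a := by rw [← h4]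
          have e3 : a⁻¹ * (a * x * a⁻¹) * a = x := by group
          rw [e3] at h5
          exact h5.symm
        rw [h3]
        exact hx
      · intro hx
        have h2 := ha' _ hx
        have : a⁻¹ * x * a = x := by
          rw [mul_assoc, h2]
          group
        rwa [this]
  have hnc : Subgroup.normalClosure (A : Set G) ≤ Nz A := by
    rw [Subgroup.normalClosure, Subgroup.closure_le]
    intro x hx
    obtain ⟨b, hb, hbx⟩ := Group.mem_conjugatesOfSet_iff.1 hx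
    obtain ⟨c, hc⟩ := isConj_iff.1 hbx
    refine hle c ?_
    rw [mem_cj, ← hc]
    have : c⁻¹ * (c * b * c⁻¹) * c = b := by group
    rw [this]
    exact hb
  rcases hs.simple _ (Subgroup.normalClosure_normal (s := (A : Set G))) with h1 | h1
  · obtain ⟨a, ha, ha1⟩ := exists_ne_one h.nb
    have : a ∈ Subgroup.normalClosure (A : Set G) := Subgroup.subset_normalClosure ha
    rw [h1] at this
    exact ha1 (Subgroup.mem_bot.1 this)
  · rw [h1] at hnc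
    exact Nz_ne_top hs h (top_le_iff.1 hnc)

/-- good subgroups are not conjugate to proper subgroups of themselves -/
theorem Good.nocomp (hs : Sy Op) {A : Subgroup G} (h : Good Op A) (g : G) : ¬ A < cj g A := by
  intro hlt
  obtain ⟨n, hn, hgn⟩ := hs.pow (h.opNz hs) (hs.cyc g) (Subgroup.mem_zpowers g)
  have h1 : ∀ m : ℕ, A < cj (g ^ (m + 1)) A := by
    intro m
    induction m with
    | zero => simpa using hlt
    | succ m ih =>
      have h2 := (cj_lt_iff g).2 ih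
      rw [← cj_mul, ← pow_succ'] at h2
      exact hlt.trans h2
  obtain ⟨m, rfl⟩ := Nat.exists_eq_succ_of_ne_zero hn
  have h2 := h1 m
  rw [show cj (g ^ (m + 1)) A = A from hgn.2] at h2
  exact lt_irrefl _ h2


end H64.BC
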